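import Mathlib

set_option autoImplicit false

namespace Pool.Agent.Results.MP_a15e14_gt.Main

open Real

abbrev E : Type := EuclideanSpace ℝ (Fin 3)

noncomputable def d (x : E) : ℝ := √(x 0 ^ 2 + x 1 ^ 2)

noncomputable def p (x y : E) : ℝ := dist x y / √(dist x y ^ 2 + 4 * d x * d y)

lemma refl_le (y z : E) :
    dist y (!₂[-z 0, -z 1, z 2] : E) ≤ √(dist z y ^ 2 + 4 * d z * d y) := by
  rw [EuclideanSpace.dist_eq, EuclideanSpace.dist_eq, sq_sqrt (by positivity)]
  refine sqrt_le_sqrt ?_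
  have h : z 0 * y 0 + z 1 * y 1 ≤ d z * d y := by
    rw [d, d, ← sqrt_mul (by positivity)]
    exact le_sqrt_of_sq_le (by nlinarith [sq_nonneg (z 0 * y 1 - z 1 * y 0)])
  simp [Fin.sum_univ_three, Real.dist_eq]
  nlinarith

theorem result (x y z : E) (hx : ¬ (x 0 = 0 ∧ x 1 = 0)) (hy : ¬ (y 0 = 0 ∧ y 1 = 0))
    (hz : ¬ (z 0 = 0 ∧ z 1 = 0)) : p x y ≤ p x z + p z y := by
  have hd : ∀ w : E, ¬ (w 0 = 0 ∧ w 1 = 0) → 0 < d w := fun w h => sqrt_pos.2 (by
    rcases not_and_or.1 h with h | h <;> positivity)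
  have h1 := EuclideanGeometry.mul_dist_le_mul_dist_add_mul_dist x z y (!₂[-z 0, -z 1, z 2] : E)
  have h2 : dist z (!₂[-z 0, -z 1, z 2] : E) = 2 * d z := by
    rw [EuclideanSpace.dist_eq, d, sqrt_eq_iff_mul_self_eq (by positivity) (by positivity),
      mul_mul_mul_comm, mul_self_sqrt (by positivity)]
    simp [Fin.sum_univ_three, Real.dist_eq]
    ring
  have h3 := refl_le y z
  have h4 := refl_le x z
  rw [dist_comm z x, mul_right_comm] at h4
  have h5 := hd x hx
  have h6 := hd y hy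
  have h7 := hd z hz
  simp only [p]
  have ha := dist_nonneg (x := x) (y := z)
  have hb := dist_nonneg (x := z) (y := y)
  have hc := dist_nonneg (x := x) (y := y)
  have hA := sq_sqrt (show 0 ≤ dist x z ^ 2 + 4 * d x * d z by positivity)
  have hB := sq_sqrt (show 0 ≤ dist z y ^ 2 + 4 * d z * d y by positivity)
  have hC := sq_sqrt (show 0 ≤ dist x y ^ 2 + 4 * d x * d y by positivity)
  have hA' := sqrt_pos.2 (show 0 < dist x z ^ 2 + 4 * d x * d z by positivity)
  have hB' := sqrt_pos.2 (show 0 < dist z y ^ 2 + 4 * d z * d y by positivity)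
  have hC' := sqrt_pos.2 (show 0 < dist x y ^ 2 + 4 * d x * d y by positivity)
  have h8 := h1.trans (add_le_add (mul_le_mul_of_nonneg_left h3 ha)
    (mul_le_mul_of_nonneg_left h4 hb))
  rw [h2] at h8
  generalize √(dist x z ^ 2 + 4 * d x * d z) = A at *
  generalize √(dist z y ^ 2 + 4 * d z * d y) = B at *
  generalize √(dist x y ^ 2 + 4 * d x * d y) = C at *
  generalize dist x z = a at *
  generalize dist z y = b at *
  generalize dist x y = c at *
  rw [div_add_div _ _ hA'.ne' hB'.ne', div_le_div_iff₀ hC' (by positivity)]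
  refine (sq_le_sq₀ (by positivity) (by positivity)).1 ?_
  have h9 : (A * B) ^ 2 ≤ (a * B + A * b) ^ 2 + 16 * d x * d y * d z ^ 2 := by
    have : 16 * d x * d y * d z ^ 2 = (A ^ 2 - a ^ 2) * (B ^ 2 - b ^ 2) := by rw [hA, hB]; ring
    rw [this]
    nlinarith [sq_nonneg (a * b), show 0 ≤ a * b * A * B by positivity]
  have h10 : (c * (2 * d z)) ^ 2 ≤ (a * B + A * b) ^ 2 :=
    pow_le_pow_left₀ (by positivity) (by linarith) 2
  rw [mul_pow, mul_pow _ C, hC]
  nlinarith [mul_le_mul_of_nonneg_left h9 (sq_nonneg c),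
    mul_le_mul_of_nonneg_left h10 (show 0 ≤ 4 * d x * d y by positivity)]

end Pool.Agent.Results.MP_a15e14_gt.Main
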